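import Pool.Agent.LT19.Lim
import Pool.Agent.PNT.Main

/-!
# The exact constant in the exponent for the number of finite lattices

`log_2 L(n) ~ (n/2)^(3/2)`; the same for the number of bipartite graphs without 4-cycles.
-/

set_option autoImplicit false

open Filter Topology

namespace Pool.Agent.Results.MP_6c45b9_co.ExactExponent

open Pool.Agent.H3Lat

theorem result :
    Tendsto (fun n : ℕ => Real.logb 2 (latticeCount n : ℝ) / ((n : ℝ) / 2) ^ (3 / 2 : ℝ))
      atTop (𝓝 1) ∧
    Tendsto (fun n : ℕ => Real.logb 2 (bipC4Count n : ℝ) / ((n : ℝ) / 2) ^ (3 / 2 : ℝ))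
      atTop (𝓝 1) :=
  Pool.Agent.LT19.limits fun _ hε => Pool.Agent.PNT.primes_short hε

end Pool.Agent.Results.MP_6c45b9_co.ExactExponent
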