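import Pool.Agent.LK87.Fin

/-!
# The number of lattices and the number of bipartite graphs without 4-cycles
-/

set_option autoImplicit false

namespace Pool.Agent.Results.MP_6c45b9_co.LatticesVersusGraphs

open Filter Pool.Agent.H3Lat

/-- `L(n) = (B(n) / n!) n ^ (o(n))`: for every `ε > 0` the logarithms to base 2 of `L(n)` and of
`B(n) / n!` differ by at most `ε n log_2 n` for all large `n`. -/
theorem result : ∀ ε : ℝ, 0 < ε → ∀ᶠ n : ℕ in atTop,
    |Real.logb 2 (latticeCount n : ℝ) -
      (Real.logb 2 (bipC4Count n : ℝ) - Real.logb 2 (n.factorial : ℝ))| ≤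
      ε * (n * Real.logb 2 n) :=
  Pool.Agent.LK87.main2

end Pool.Agent.Results.MP_6c45b9_co.LatticesVersusGraphs
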