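import Pool.Agent.NP50.Lat
import Pool.Agent.PNT.Main

/-!
# Almost all finite lattices are regular halves of near projective planes
-/

set_option autoImplicit false

open Filter

namespace Pool.Agent.Results.MP_6c45b9_co.NearPlanes

open Pool.Agent.H3Lat Pool.Agent.NP50

/-- For every `ε > 0` there is `c > 0` such that for all large `n` all but a
`2 ^ (-c n ^ (3/2))` share of the isomorphism classes of lattices with `n + 2` elements have only
members which are near planes (`NearPlane`). -/
theorem result : ∀ ε : ℝ, 0 < ε → ∃ c : ℝ, 0 < c ∧ ∀ᶠ n : ℕ in atTop,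
    (Nat.card {q : Quotient (latSetoid (Fin (n + 2))) //
      ∃ r : LatOn (Fin (n + 2)), q = Quotient.mk _ r ∧ ¬ NearPlane n ε c r.1} : ℝ) ≤
    2 ^ (-(c * (n : ℝ) ^ (3 / 2 : ℝ))) * (latticeCount n : ℝ) :=
  fun _ hε => typical_near (fun _ h => Pool.Agent.PNT.primes_short h) hε

end Pool.Agent.Results.MP_6c45b9_co.NearPlanes
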