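import Pool.Agent.ON50.Onto
import Pool.Agent.PNT.Main

/-!
# Almost all finite lattices are simple and strongly rigid
-/

set_option autoImplicit false

open Filter

namespace Pool.Agent.Results.MP_6c45b9_co.SimpleRigid

open Pool.Agent.H3Lat Pool.Agent.ON50

/-- There is `C > 0` such that for all large `n`, all but at most a `2 ^ (-√n / 120)` share of the
isomorphism classes of lattices with `n + 2` elements have the following property: a homomorphism from
a sublattice with at least `C √n log n` elements onto a lattice with at least two elements is an
isomorphism of the whole lattice, and it is the only homomorphism onto that lattice. -/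
theorem result : ∃ C : ℝ, 0 < C ∧ ∀ᶠ n : ℕ in atTop,
    (Nat.card {q : Quotient (latSetoid (Fin (n + 2))) // ∃ r : LatOn (Fin (n + 2)),
      q = Quotient.mk _ r ∧ ¬ OntoRigid r.1 (C * (√(n : ℝ) * Real.log n))} : ℝ) ≤
    2 ^ (-(√(n : ℝ) / 120)) * (latticeCount n : ℝ) :=
  onto_main (fun _ h => Pool.Agent.PNT.primes_short h)

end Pool.Agent.Results.MP_6c45b9_co.SimpleRigid
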